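import Pool.Agent.V11231.WC.Mem

/-!
# The Waiter-Client domination game is `PSPACE`-complete

A graph is given by its adjacency matrix `M : List (List Bool)`; `DominatorWins M` is defined through
the inductive predicate `Win`: Dominator offers two different unclaimed vertices, Staller takes one
of them and the other one goes to Dominator, and Dominator wins when her vertices dominate.

Proof of the hardness. A gadget has four vertices, and for each three of them there is an edge of a
hypergraph, whose edges Client wants to claim completely. Therefore Waiter has to choose a perfect
matching of the gadget (a bit), and Client then chooses one vertex of each pair (a bit). That the
gadgets are played in order is enforced by rules that a bit of Waiter has to be equal to a bit, or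
to the sum of two bits, which Client chose before. Many copies of the edges become vertices of the
graph, and the vertices of the hypergraph form a clique.
-/

namespace Pool.Agent.Results.MP_2d136f_lc.WCDomPSPACEComplete

open Pool.Agent.NPC Pool.Agent.H623R2.PS Pool.Agent.V11231.WC

/-- **WC-DOM is `PSPACE`-complete** under polynomial-time many-one reductions. -/
theorem result : PSPACEComplete (lang WCDom) := wcDom_complete

end Pool.Agent.Results.MP_2d136f_lc.WCDomPSPACEComplete
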